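import Pool.Agent.Helper68.Dom.Goals
import Pool.Agent.Helper58.Apex.Reduce

/-!
# Packet DOM-MODX (project DOM, MP_18808e_co)
-/

set_option autoImplicit false

namespace NApexGraphs.Dom.Helper71

open SimpleGraph NApexGraphs NApexGraphs.Dom

universe w

/-- In the situation of MODX one of the branch sets of a model is `{x}`. -/
theorem exists_single {κ : Type w} {V : Type} {K : SimpleGraph κ} {G : SimpleGraph V} {Z : Set V}
    {u x p q : V} (hux : u ≠ x) (hpx : p ≠ x) (hqx : q ≠ x) (hup : G.Adj u p) (huq : G.Adj u q)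
    (hn : ∀ z ∈ Z, G.Adj x z → z = u ∨ z = p ∨ z = q)
    (hno : ∀ B : κ → Set V, IsModel K (G.deleteEdges {s(u, x)}) B → (∀ k, B k ⊆ Z) → False)
    {B : κ → Set V} (hB : IsModel K G B) (hZ : ∀ k, B k ⊆ Z) : ∃ k, B k = {x} := by
  have step1 : ∀ B : κ → Set V, IsModel K G B → (∀ k, B k ⊆ Z) → (∀ k, x ∉ B k) → False := by
    intro B hB hZ hx
    have h1 := hB.deleteEdge_of_notMem (y := u) hx
    rw [Sym2.eq_swap] at h1
    exact hno B h1 hZ
  have hB' := (isModel_iff _ _ _).1 hB
  obtain ⟨hc, hd, ha⟩ := hB'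
  by_contra hcon
  push Not at hcon
  have hxk : ∃ k, x ∈ B k := by
    by_contra h
    push Not at h
    exact step1 B hB hZ h
  obtain ⟨k, hk⟩ := hxk
  have hkl : ∀ l, l ≠ k → x ∉ B l := fun l hl hx => Set.disjoint_left.1 (hd l k hl) hx hk
  by_cases hu : u ∈ B k
  · refine step1 (fun l => B l \ {x}) ?_ (fun l => Set.diff_subset.trans (hZ l))
      (fun l h => h.2 rfl)
    rw [isModel_iff]
    refine ⟨?_, ?_, ?_⟩
    · intro l
      by_cases hl : l = k
      · subst hl
        refine ⟨⟨u, hu, fun h => hux h⟩, ?_⟩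
        intro A hA hne hcl
        by_cases huA : u ∈ A
        · have h1 : B l ⊆ A ∪ {x} := by
            apply (hc l).2 _ _ ⟨u, Or.inl huA⟩
            · intro a haA y hy hay
              by_cases hyx : y = x
              · exact Or.inr hyx
              · left
                rcases haA with haA | hax
                · exact hcl a haA y ⟨hy, hyx⟩ hay
                · rw [Set.mem_singleton_iff] at hax
                  subst hax
                  rcases hn y (hZ l hy) hay with h | h | h
                  · rw [h]; exact huA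
                  · exact hcl u huA y ⟨hy, hyx⟩ (h ▸ hup)
                  · exact hcl u huA y ⟨hy, hyx⟩ (h ▸ huq)
            · rintro a (haA | hax)
              · exact (hA haA).1
              · rw [Set.mem_singleton_iff] at hax
                rw [hax]
                exact hk
          rintro a ⟨ha1, ha2⟩
          exact (h1 ha1).resolve_right ha2
        · exfalso
          have h1 : B l ⊆ A := by
            apply (hc l).2 _ (hA.trans Set.diff_subset) hne
            intro a haA y hy hay
            by_cases hyx : y = x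
            · exfalso
              subst hyx
              rcases hn a (hZ l (hA haA).1) hay.symm with h | h | h
              · exact huA (h ▸ haA)
              · exact huA (hcl a haA u ⟨hu, hux⟩ (h ▸ hup.symm))
              · exact huA (hcl a haA u ⟨hu, hux⟩ (h ▸ huq.symm))
            · exact hcl a haA y ⟨hy, hyx⟩ hay
          exact huA (h1 hu)
      · have h1 : B l \ {x} = B l := Set.diff_singleton_eq_self (hkl l hl)
        show Conn G (B l \ {x})
        rw [h1]
        exact hc l
    · intro l m hlm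
      exact (hd l m hlm).mono Set.diff_subset Set.diff_subset
    · intro l m hlm
      have hlm' : l ≠ m := hlm.ne
      obtain ⟨a, haB, b, hbB, hab⟩ := ha l m hlm
      by_cases hax : a = x
      · subst hax
        have hl : l = k := by
          by_contra h
          exact hkl l h haB
        subst hl
        have hbu : b ≠ u := fun h => Set.disjoint_left.1 (hd l m hlm') hu (h ▸ hbB)
        have hba : b ≠ a := fun h => Set.disjoint_left.1 (hd l m hlm') haB (h ▸ hbB)
        refine ⟨u, ⟨hu, hux⟩, b, ⟨hbB, hba⟩, ?_⟩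
        rcases hn b (hZ m hbB) hab with h | h | h
        · exact absurd h hbu
        · exact h ▸ hup
        · exact h ▸ huq
      · by_cases hbx : b = x
        · subst hbx
          have hm : m = k := by
            by_contra h
            exact hkl m h hbB
          subst hm
          have hau : a ≠ u := fun h => Set.disjoint_left.1 (hd l m hlm') haB (h ▸ hu)
          refine ⟨a, ⟨haB, hax⟩, u, ⟨hu, hux⟩, ?_⟩
          rcases hn a (hZ l haB) hab.symm with h | h | h
          · exact absurd h hau
          · exact h ▸ hup.symm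
          · exact h ▸ huq.symm
        · exact ⟨a, ⟨haB, hax⟩, b, ⟨hbB, hbx⟩, hab⟩
  · refine hno B ?_ hZ
    have hadj : ∀ a b, G.Adj a b → ¬ (a = u ∧ b = x) → ¬ (a = x ∧ b = u) →
        (G.deleteEdges {s(u, x)}).Adj a b := by
      intro a b hab h1 h2
      rw [SimpleGraph.deleteEdges_adj]
      refine ⟨hab, ?_⟩
      intro he
      rw [Set.mem_singleton_iff, Sym2.eq_iff] at he
      rcases he with h | h
      · exact h1 h
      · exact h2 h
    have hpq : ∃ y ∈ B k, y ≠ x ∧ G.Adj u y := by
      have h1 : (B k \ {x}).Nonempty := by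
        by_contra h
        rw [Set.not_nonempty_iff_eq_empty, Set.diff_eq_empty] at h
        exact hcon k (Set.Subset.antisymm h (Set.singleton_subset_iff.2 hk))
      obtain ⟨a, haB, hax, y, hy, hyx, hay⟩ := (hc k).exists_edge (A := {x}) ⟨x, hk, rfl⟩ h1
      rw [Set.mem_singleton_iff] at hax
      subst hax
      refine ⟨y, hy, hyx, ?_⟩
      rcases hn y (hZ k hy) hay with h | h | h
      · exact absurd (h ▸ hy) hu
      · exact h ▸ hup
      · exact h ▸ huq
    obtain ⟨y, hy, hyx, huy⟩ := hpq
    rw [isModel_iff]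
    refine ⟨?_, hd, ?_⟩
    · intro l
      apply (hc l).mono
      intro a haB b hbB hab
      apply hadj a b hab
      · rintro ⟨rfl, rfl⟩
        by_cases hl : l = k
        · subst hl
          exact hu haB
        · exact hkl l hl hbB
      · rintro ⟨rfl, rfl⟩
        by_cases hl : l = k
        · subst hl
          exact hu hbB
        · exact hkl l hl haB
    · intro l m hlm
      obtain ⟨a, haB, b, hbB, hab⟩ := ha l m hlm
      by_cases h1 : a = u ∧ b = x
      · obtain ⟨rfl, rfl⟩ := h1
        have hm : m = k := by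
          by_contra h
          exact hkl m h hbB
        subst hm
        exact ⟨a, haB, y, hy, hadj _ _ huy (fun h => hyx h.2) (fun h => hux h.1)⟩
      · by_cases h2 : a = x ∧ b = u
        · obtain ⟨rfl, rfl⟩ := h2
          have hl : l = k := by
            by_contra h
            exact hkl l h haB
          subst hl
          exact ⟨y, hy, b, hbB, hadj _ _ huy.symm (fun h => hux h.2) (fun h => hyx h.1)⟩
        · exact ⟨a, haB, b, hbB, hadj a b hab h1 h2⟩

/-- The sets `E, F, P, Q` from a `K₃,₃` model one of whose sets is `{x}`. -/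
theorem sets_of_single {V : Type} {G : SimpleGraph V} {Z : Set V} {u x p q : V}
    (hn : ∀ z ∈ Z, G.Adj x z → z = u ∨ z = p ∨ z = q)
    (A D : Fin 3 → Set V) (hA : ∀ i, Conn G (A i)) (hD : ∀ i, Conn G (D i))
    (dA : ∀ i j, i ≠ j → Disjoint (A i) (A j)) (dD : ∀ i j, i ≠ j → Disjoint (D i) (D j))
    (dAD : ∀ i j, Disjoint (A i) (D j)) (adj : ∀ i j, Touch G (A i) (D j))
    (sA : ∀ i, A i ⊆ Z) (sD : ∀ i, D i ⊆ Z) (i0 : Fin 3) (h0 : A i0 = {x}) :
    ∃ E F P Q : Set V, (∀ S ∈ [E, F, P, Q], Conn G S) ∧ [E, F, P, Q].Pairwise Disjoint ∧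
      (∀ S ∈ [E, F, P, Q], S ⊆ Z ∧ u ∉ S ∧ x ∉ S) ∧ p ∈ P ∧ q ∈ Q ∧
      Touch G E P ∧ Touch G E Q ∧ Touch G F P ∧ Touch G F Q := by
  classical
  have h1 : ∀ j, ∃ z ∈ D j, z ∈ ({u, p, q} : Finset V) := by
    intro j
    obtain ⟨a, ha, b, hb, hab⟩ := adj i0 j
    rw [h0, Set.mem_singleton_iff] at ha
    subst ha
    refine ⟨b, hb, ?_⟩
    rcases hn b (sD j hb) hab with h | h | h <;> simp [h]
  choose e he1 he2 using h1
  have hinj : Function.Injective e := by
    intro i j hij
    by_contra hne
    exact Set.disjoint_left.1 (dD i j hne) (he1 i) (hij ▸ he1 j)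
  have hcard : (Finset.univ.image e).card = 3 := by
    rw [Finset.card_image_of_injective _ hinj]
    simp
  have h3 : ({u, p, q} : Finset V).card ≤ 3 := Finset.card_le_three
  have hsub : Finset.univ.image e ⊆ ({u, p, q} : Finset V) := by
    intro z hz
    obtain ⟨i, _, rfl⟩ := Finset.mem_image.1 hz
    exact he2 i
  have heq : Finset.univ.image e = ({u, p, q} : Finset V) :=
    Finset.eq_of_subset_of_card_le hsub (by rw [hcard]; exact h3)
  have hc3 : ({u, p, q} : Finset V).card = 3 := by rw [← heq, hcard]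
  have hup : u ≠ p := by
    rintro rfl
    have : ({u, u, q} : Finset V).card ≤ 2 := by
      rw [Finset.insert_idem]
      exact Finset.card_le_two
    omega
  have huq : u ≠ q := by
    rintro rfl
    have : ({u, p, u} : Finset V).card ≤ 2 := by
      rw [Finset.insert_eq_self.2 (by simp)]
      exact Finset.card_le_two
    omega
  have hpq : p ≠ q := by
    rintro rfl
    have : ({u, p, p} : Finset V).card ≤ 2 := by
      rw [Finset.pair_eq_singleton]
      exact Finset.card_le_two
    omega
  have hex : ∀ z ∈ ({u, p, q} : Finset V), ∃ i, z ∈ D i := by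
    intro z hz
    rw [← heq] at hz
    obtain ⟨i, _, rfl⟩ := Finset.mem_image.1 hz
    exact ⟨i, he1 i⟩
  -- the three indices are different because the chosen points are
  have hsurj : ∀ z ∈ ({u, p, q} : Finset V), ∃ i, e i = z := by
    intro z hz
    rw [← heq] at hz
    obtain ⟨i, _, hi⟩ := Finset.mem_image.1 hz
    exact ⟨i, hi⟩
  obtain ⟨iu, hiu⟩ := hsurj u (by simp)
  obtain ⟨ip, hip⟩ := hsurj p (by simp)
  obtain ⟨iq, hiq⟩ := hsurj q (by simp)
  have nup : iu ≠ ip := fun h => hup (by rw [← hiu, ← hip, h])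
  have nuq : iu ≠ iq := fun h => huq (by rw [← hiu, ← hiq, h])
  have npq : ip ≠ iq := fun h => hpq (by rw [← hip, ← hiq, h])
  have huD : u ∈ D iu := hiu ▸ he1 iu
  have hpD : p ∈ D ip := hip ▸ he1 ip
  have hqD : q ∈ D iq := hiq ▸ he1 iq
  have hx0 : x ∈ A i0 := by rw [h0]; rfl
  obtain ⟨i1, i2, h10, h20, h12⟩ : ∃ i1 i2 : Fin 3, i1 ≠ i0 ∧ i2 ≠ i0 ∧ i1 ≠ i2 := by
    revert i0
    intro i0 _ _
    fin_cases i0
    · exact ⟨1, 2, by decide, by decide, by decide⟩
    · exact ⟨0, 2, by decide, by decide, by decide⟩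
    · exact ⟨0, 1, by decide, by decide, by decide⟩
  refine ⟨A i1, A i2, D ip, D iq, ?_, ?_, ?_, hpD, hqD, adj _ _, adj _ _, adj _ _, adj _ _⟩
  · simp only [List.mem_cons, List.not_mem_nil, or_false, forall_eq_or_imp, forall_eq]
    exact ⟨hA _, hA _, hD _, hD _⟩
  · simp only [List.pairwise_cons, List.mem_cons, List.not_mem_nil, or_false, forall_eq_or_imp,
      forall_eq, IsEmpty.forall_iff, implies_true, List.Pairwise.nil, and_true]
    exact ⟨⟨dA _ _ h12, dAD _ _, dAD _ _⟩, ⟨dAD _ _, dAD _ _⟩, dD _ _ npq⟩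
  · simp only [List.mem_cons, List.not_mem_nil, or_false, forall_eq_or_imp, forall_eq]
    refine ⟨⟨sA _, ?_, ?_⟩, ⟨sA _, ?_, ?_⟩, ⟨sD _, ?_, ?_⟩, ⟨sD _, ?_, ?_⟩⟩
    · exact fun h => Set.disjoint_left.1 (dAD _ _) h huD
    · exact fun h => Set.disjoint_left.1 (dA _ _ h10) h hx0
    · exact fun h => Set.disjoint_left.1 (dAD _ _) h huD
    · exact fun h => Set.disjoint_left.1 (dA _ _ h20) h hx0
    · exact fun h => Set.disjoint_left.1 (dD _ _ nup) huD h
    · exact fun h => Set.disjoint_left.1 (dAD i0 ip) hx0 h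
    · exact fun h => Set.disjoint_left.1 (dD _ _ nuq) huD h
    · exact fun h => Set.disjoint_left.1 (dAD i0 iq) hx0 h

theorem gMODX : Goals.MODX := by
  classical
  intro V G Z u x p q hux hpx hqx hup huq hn hpl hnp
  have h5 : ¬ HasK5 G Z := by
    rintro ⟨B, hB, hZ⟩
    obtain ⟨k, hk⟩ := exists_single hux hpx hqx hup huq hn
      (fun B hB hZ => hpl.1 ⟨B, hB, hZ⟩) hB hZ
    have hB' := (isModel_iff _ _ _).1 hB
    have h1 := card_meet_le (B := B) hB'.2.1 ({u, p, q} : Finset V) (Finset.univ.erase k) (by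
      intro l hl
      obtain ⟨a, ha, b, hb, hab⟩ := hB'.2.2 k l (by
        rw [top_adj]
        exact (Finset.ne_of_mem_erase hl).symm)
      rw [hk, Set.mem_singleton_iff] at ha
      subst ha
      refine ⟨b, ?_, hb⟩
      rcases hn b (hZ l hb) hab with h | h | h <;> simp [h])
    rw [Finset.card_erase_of_mem (Finset.mem_univ _)] at h1
    have h3 : ({u, p, q} : Finset V).card ≤ 3 := Finset.card_le_three
    simp at h1
    omega
  have h33 : HasK33 G Z := by
    by_contra h
    exact hnp ⟨h5, h⟩
  obtain ⟨B, hB, hZ⟩ := h33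
  obtain ⟨k, hk⟩ := exists_single hux hpx hqx hup huq hn
    (fun B hB hZ => hpl.2 ⟨B, hB, hZ⟩) hB hZ
  have hB' := (isModel_iff _ _ _).1 hB
  obtain ⟨hc, hd, ha⟩ := hB'
  rcases k with i | i
  · exact sets_of_single hn (fun j => B (Sum.inl j)) (fun j => B (Sum.inr j)) (fun j => hc _)
      (fun j => hc _) (fun a b hab => hd _ _ (fun h => hab (Sum.inl_injective h)))
      (fun a b hab => hd _ _ (fun h => hab (Sum.inr_injective h)))
      (fun a b => hd _ _ (by simp)) (fun a b => ha _ _ (by simp)) (fun j => hZ _)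
      (fun j => hZ _) i hk
  · exact sets_of_single hn (fun j => B (Sum.inr j)) (fun j => B (Sum.inl j)) (fun j => hc _)
      (fun j => hc _) (fun a b hab => hd _ _ (fun h => hab (Sum.inr_injective h)))
      (fun a b hab => hd _ _ (fun h => hab (Sum.inl_injective h)))
      (fun a b => hd _ _ (by simp)) (fun a b => ha _ _ (by simp)) (fun j => hZ _)
      (fun j => hZ _) i hk

end NApexGraphs.Dom.Helper71
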